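import Mathlib

/-!
Project SC15 (MP_cf6277_nt): definitions shared by all parts.
-/

namespace SC15

open Finset

/-- `u k = (3k)! / (k!)^3`. -/
def u (k : ℕ) : ℕ := Nat.centralBinom k * Nat.choose (3 * k) k

/-- The truncated series `P(b) = ∑_{j<p} u_j b^j`. -/
def P {A : Type*} [CommRing A] (p : ℕ) (b : A) : A :=
  ∑ j ∈ range p, (u j : A) * b ^ j

/-- The numbers `r_j` (in `ZMod p`): `u_j (H_{3j} - H_j)` for `3j < p`, `u_j / p` for
`p < 3j < 2p`, and `0` for `2p < 3j`. -/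
def r (p j : ℕ) : ZMod p :=
  if 3 * j < p then
    (u j : ZMod p) * (∑ t ∈ range (3 * j), ((t + 1 : ℕ) : ZMod p)⁻¹
      - ∑ t ∈ range j, ((t + 1 : ℕ) : ZMod p)⁻¹)
  else if 3 * j < 2 * p then ((u j / p : ℕ) : ZMod p) else 0

/-- `R(b) = ∑_{j<p} r_j b^j` in a field of characteristic `p`. -/
def R {k : Type*} [Field k] (p : ℕ) [Algebra (ZMod p) k] (b : k) : k :=
  ∑ j ∈ range p, algebraMap (ZMod p) k (r p j) * b ^ j

/-- The coefficient `c_{n,i} = C(2i,i) C(n-1-i,2i)`. -/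
def cc (n i : ℕ) : ℕ := Nat.centralBinom i * Nat.choose (n - 1 - i) (2 * i)

/-- `c_n(b) = ∑_i C(2i,i) C(n-1-i,2i) b^i`. -/
def c {A : Type*} [CommRing A] (n : ℕ) (b : A) : A :=
  ∑ i ∈ range n, (cc n i : A) * b ^ i

/-- `(θ c_n)(b) = ∑_i i C(2i,i) C(n-1-i,2i) b^i`. -/
def thc {A : Type*} [CommRing A] (n : ℕ) (b : A) : A :=
  ∑ i ∈ range n, (i : A) * (cc n i : A) * b ^ i

/-- The sign `ε = (-3/p)`. -/
def eps (p : ℕ) : ℤ := if p % 3 = 1 then 1 else -1

/-- A ring `W` with residue field `k = W/p` of characteristic `p` and a Frobenius lift `σ`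
(the example: Witt vectors over a finite field). -/
structure Lift (p : ℕ) (W k : Type*) [CommRing W] [Field k] where
  π : W →+* k
  σ : W →+* W
  ker : ∀ x, π x = 0 ↔ (p : W) ∣ x
  unit : ∀ x, π x ≠ 0 → IsUnit x
  frob : ∀ x, π (σ x) = π x ^ p
  tf : ∀ x : W, (p : W) * x = 0 → x = 0

end SC15
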